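import Pool.Agent.PFC.StmtsB3

/-!
# PFC, row CNT: the index of `V` as a product
-/

namespace Pool.Agent.PFC.B3.H20

open Pool.Agent.PFC.B3

theorem ka_eq (V : Type) [CommGroup V] (ℓ a : ℕ) :
    Ka V ℓ a = (powMonoidHom (ℓ ^ (a + 1)) : V →* V).range.comap
      (powMonoidHom (ℓ ^ a) : V →* V) := by
  apply le_antisymm
  · unfold Ka
    rw [sup_le_iff]
    constructor
    · intro v hv
      rw [MonoidHom.mem_ker] at hv
      rw [Subgroup.mem_comap, hv]
      exact one_mem _
    · rintro _ ⟨w, rfl⟩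
      rw [Subgroup.mem_comap]
      refine ⟨w, ?_⟩
      simp only [powMonoidHom_apply]
      rw [← pow_mul, pow_succ']
  · intro v hv
    rw [Subgroup.mem_comap] at hv
    obtain ⟨w, hw⟩ := hv
    simp only [powMonoidHom_apply] at hw
    have h1 : v = v * (w ^ ℓ)⁻¹ * w ^ ℓ := by
      rw [inv_mul_cancel_right]
    rw [h1]
    refine Subgroup.mul_mem_sup ?_ ⟨w, rfl⟩
    rw [MonoidHom.mem_ker]
    simp only [powMonoidHom_apply]
    rw [mul_pow, inv_pow, ← pow_mul, ← pow_succ', hw, mul_inv_cancel]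

/-- CNT -/
theorem cnt : CntStmt := by
  intro ℓ _ V _ _ m hm
  have key : ∀ k : ℕ, ∏ a ∈ Finset.range k, (Ka V ℓ a).index =
      (powMonoidHom (ℓ ^ k) : V →* V).range.index := by
    intro k
    induction k with
    | zero =>
      have : (powMonoidHom (ℓ ^ 0) : V →* V).range = ⊤ := by
        rw [eq_top_iff]
        intro v _
        exact ⟨v, by simp⟩
      rw [this, Subgroup.index_top, Finset.prod_range_zero]
    | succ k ih =>
      rw [Finset.prod_range_succ, ih, ka_eq, Subgroup.index_comap, mul_comm]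
      apply Subgroup.relIndex_mul_index
      rintro _ ⟨w, rfl⟩
      refine ⟨w ^ ℓ, ?_⟩
      simp only [powMonoidHom_apply]
      rw [← pow_mul, pow_succ']
  rw [key m]
  have : (powMonoidHom (ℓ ^ m) : V →* V).range = ⊥ := by
    rw [eq_bot_iff]
    rintro _ ⟨w, rfl⟩
    rw [Subgroup.mem_bot]
    exact hm w
  rw [this, Subgroup.index_bot]

end Pool.Agent.PFC.B3.H20
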