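import Pool.Agent.PFC.StmtsB4b
import Pool.Agent.PFC.B4.PSR_49
import Pool.Agent.Helper41_PFC.PSM

/-!
# PFC, row QCP: summands of permutation modules
-/

open scoped TensorProduct

namespace Pool.Agent.PFC.H20

open Pool.Agent.PFC

theorem cj_apply {F V A : Type} [Field F] [Group V] [Ring A] [Algebra F A] (α : V →* A) (v : V)
    (a : A) : cj F α v a = α v * (a * α v⁻¹) := rfl

theorem bi_apply {F V A : Type} [Field F] [Group V] [Ring A] [Algebra F A] (α : V →* A)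
    (w : V × V) (a : A) : bi F α w a = α w.1 * (a * α w.2⁻¹) := rfl

/-- trivial representations of finite dimension -/
theorem ps_triv {F V M : Type} [Field F] [Group V] [AddCommGroup M] [Module F M]
    [FiniteDimensional F M] (ρ : V →* (M →ₗ[F] M)) (h : ∀ v m, ρ v m = m) :
    PS (fun _ => True) ρ := by
  refine ⟨Fin (Module.finrank F M), inferInstance,
    { smul := fun _ x => x, one_smul := fun _ => rfl, mul_smul := fun _ _ _ => rfl },
    fun i => Module.finBasis F M i, fun i => (Module.finBasis F M).coord i, ⟨?_, ?_, ?_⟩,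
    fun _ => trivial⟩
  · intro v i
    rw [h]
    rfl
  · intro v i m
    rw [h]
    rfl
  · intro m
    exact (Module.finBasis F M).sum_repr m

theorem cj_comm {F V A : Type} [Field F] [Group V] [CommRing A] [Algebra F A] (α : V →* A) (v : V)
    (a : A) : cj F α v a = a := by
  rw [cj_apply, mul_comm a, ← mul_assoc, ← map_mul, mul_inv_cancel, map_one, one_mul]

theorem op_aux {F V A : Type} [Field F] [Group V] [Ring A] [Algebra F A] (α : V →* A)
    (α' : V →* Aᵐᵒᵖ) (h : ∀ v, α' v = MulOpposite.op (α v⁻¹)) (v : V) (n : Aᵐᵒᵖ) :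
    MulOpposite.unop (cj F α' v n) = cj F α v (MulOpposite.unop n) := by
  rw [cj_apply, cj_apply, h, h, MulOpposite.unop_mul, MulOpposite.unop_mul, MulOpposite.unop_op,
    MulOpposite.unop_op, inv_inv, mul_assoc]

theorem tens_aux {F V A B : Type} [Field F] [Group V] [Ring A] [Algebra F A] [Ring B] [Algebra F B]
    (α : V →* A) (β : V →* B) (γ : V →* A ⊗[F] B) (h : ∀ v, γ v = α v ⊗ₜ[F] β v) :
    cj F γ = tns (cj F α) (cj F β) := by
  ext v : 1
  apply TensorProduct.ext'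
  intro a b
  show cj F γ v (a ⊗ₜ[F] b) = (cj F α v a) ⊗ₜ[F] (cj F β v b)
  rw [cj_apply, cj_apply, cj_apply, h, h, Algebra.TensorProduct.tmul_mul_tmul,
    Algebra.TensorProduct.tmul_mul_tmul]

/-- equivariance of a corner -/
theorem cor_aux {F V : Type} [Field F] [CommGroup V] {X Y : IA F V} {j : X.A} {κ : Y.A →ₗ[F] X.A}
    (hc : Cor X Y j κ) : ∃ p : X.A →ₗ[F] Y.A,
      (∀ w b, κ (bi F Y.ι w b) = bi F X.ι w (κ b)) ∧
      (∀ w a, p (bi F X.ι w a) = bi F Y.ι w (p a)) ∧ ∀ b, p (κ b) = b := by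
  obtain ⟨g, hg⟩ := LinearMap.exists_leftInverse_of_injective κ (LinearMap.ker_eq_bot.mpr hc.inj)
  have hg' : ∀ b, g (κ b) = b := fun b => by
    have := LinearMap.congr_fun hg b
    simpa using this
  have hjb : ∀ b, j * κ b = κ b := fun b => by rw [← hc.one, ← hc.mul, one_mul]
  have hbj : ∀ b, κ b * j = κ b := fun b => by rw [← hc.one, ← hc.mul, mul_one]
  have hjj : j * j = j := by rw [← hc.one, ← hc.mul, mul_one]
  obtain ⟨p, hp⟩ : ∃ p : X.A →ₗ[F] Y.A, ∀ a, p a = g (j * (a * j)) :=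
    ⟨g.comp ((LinearMap.mulLeft F j).comp (LinearMap.mulRight F j)), fun a => rfl⟩
  have hκp : ∀ a, κ (p a) = j * (a * j) := by
    intro a
    obtain ⟨b, hb⟩ := hc.ran (j * (a * j)) (by rw [← mul_assoc j j, hjj])
      (by rw [mul_assoc, mul_assoc, hjj])
    rw [hp, ← hb, hg']
  have hk : ∀ w b, κ (bi F Y.ι w b) = bi F X.ι w (κ b) := by
    intro w b
    rw [bi_apply, bi_apply, hc.mul, hc.mul, hc.cov, hc.cov, hc.com w.2⁻¹, ← mul_assoc (κ b) j,
      hbj, mul_assoc, ← mul_assoc j (κ b), hjb]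
  refine ⟨p, hk, ?_, ?_⟩
  · intro w a
    apply hc.inj
    rw [hk, hκp, hκp, bi_apply, bi_apply, ← mul_assoc j, ← mul_assoc j, ← hc.com w.1]
    simp only [mul_assoc]
    rw [hc.com w.2⁻¹]
  · intro b
    apply hc.inj
    rw [hκp, hbj, hjb]

/-- QCP -/
theorem qcp : QcpStmt := by
  intro F V _ _ _
  have psm := Pool.Agent.PFC.H41.psm
  refine ⟨?_, ?_, ?_, ?_, ?_, ?_, ?_⟩
  · intro X Y hX hY
    have h := Pool.Agent.PFC.H49b.pst F V X.A Y.A (cj F X.ι) (cj F Y.ι) _ _ hX hY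
    have h2 : cj F (X.tens Y).ι = tns (cj F X.ι) (cj F Y.ι) :=
      tens_aux X.ι Y.ι (X.tens Y).ι (fun _ => rfl)
    obtain ⟨Ω, iF, iA, b, c, hfr, _⟩ := h
    unfold CP
    rw [h2]
    exact ⟨Ω, iF, iA, b, c, hfr, fun _ => trivial⟩
  · intro X hX
    refine psm F V X.A X.op.A (cj F X.ι) (cj F X.op.ι) _
      ((MulOpposite.opLinearEquiv F).symm : X.Aᵐᵒᵖ ≃ₗ[F] X.A).toLinearMap
      ((MulOpposite.opLinearEquiv F) : X.A ≃ₗ[F] X.Aᵐᵒᵖ).toLinearMap ?_ ?_ ?_ hX
    · intro v n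
      exact op_aux X.ι X.op.ι (fun _ => rfl) v n
    · intro v m
      exact (MulOpposite.unop_injective (op_aux X.ι X.op.ι (fun _ => rfl) v
        (MulOpposite.op m))).symm
    · intro n
      rfl
  · intro X Y Q hQ hX
    obtain ⟨β, s, h⟩ := hQ
    exact psm F V X.A Y.A (cj F X.ι) (cj F Y.ι) _ s β (fun v n => h.es v n) (fun v m => h.eb v m)
      h.bs hX
  · intro X Y j κ hc hX
    obtain ⟨p, h1, h2, h3⟩ := cor_aux hc
    exact psm F V X.A Y.A (cj F X.ι) (cj F Y.ι) _ κ p (fun v n => h1 (v, v) n)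
      (fun v m => h2 (v, v) m) h3 hX
  · intro P X Y j κ hc hX
    obtain ⟨p, h1, h2, h3⟩ := cor_aux hc
    exact psm F (V × V) X.A Y.A (bi F X.ι) (bi F Y.ι) _ κ p h1 h2 h3 hX
  · exact ps_triv (cj F (IA.one F V).ι) (fun v m => cj_comm (A := F) (IA.one F V).ι v m)
  · exact ps_triv (cj F (IA.gr F V).ι)
      (fun v m => cj_comm (A := MonoidAlgebra F V) (IA.gr F V).ι v m)

end Pool.Agent.PFC.H20
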